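import Pool.Agent.Mg.F54d89f.G755979

namespace Pool.Agent.Results.MP_54d89f_nt.AllN

open Finset

theorem result (p : ℕ) (hp : p.Prime) (h3 : 3 < p) (n : ℕ) (hn : 1 ≤ n) :
    (p : ℤ) ∣ ((16 : ℚ) ^ n *
        ((∑ k ∈ range (p * n), (3 * (k : ℚ) + 1) * (Nat.choose (2 * k) k : ℚ) ^ 3 / 16 ^ k) -
          (p : ℚ) * ∑ k ∈ range n, (3 * (k : ℚ) + 1) * (Nat.choose (2 * k) k : ℚ) ^ 3 / 16 ^ k) /
        (((p : ℚ) * (n : ℚ)) ^ 4 * (Nat.choose (2 * n) n : ℚ) ^ 3) -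
      7 / 3 * bernoulli (p - 3)).num := by
  have : Fact p.Prime := ⟨hp⟩
  have h5 : 5 ≤ p := by
    rcases hp.eq_two_or_odd with h | h <;> omega
  refine Pool.Agent.MP_54d89f_nt.dvd_num_of_norm ?_
  have h := Pool.Agent.MP_54d89f_nt.final_padic h5 n hn
  rw [Pool.Agent.MP_54d89f_nt.Phi_half, Pool.Agent.MP_54d89f_nt.Phi_half] at h
  push_cast
  exact h

end Pool.Agent.Results.MP_54d89f_nt.AllN
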