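import Pool.Agent.MP_54d89f_nt.Dx.All

namespace Pool.Agent.Results.MP_54d89f_nt.DworkFamily

open Finset Pool.Agent.MP_030fd4_nt

theorem result (p : ℕ) [Fact p.Prime] (hp : 3 < p) (D : ℕ) (m e κ α β γ : ℤ)
    (hm : (m = 16 ∧ D = 3 ∧ e = 1 ∧ κ = 18 ∧ α = 9 ∧ β = 9 ∧ γ = 2) ∨
      (m = 256 ∧ D = 3 ∧ e = -1 ∧ κ = 72 ∧ α = 36 ∧ β = 0 ∧ γ = -1) ∨
      (m = -8 ∧ D = 4 ∧ e = 1 ∧ κ = -16 ∧ α = 18 ∧ β = 14 ∧ γ = 3) ∨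
      (m = -512 ∧ D = 4 ∧ e = 2 ∧ κ = -32 ∧ α = 36 ∧ β = 8 ∧ γ = 1))
    (a S Q : ℕ → ℚ_[p])
    (ha : ∀ k : ℕ, a k = (((2 * k).choose k : ℕ) : ℚ_[p]) ^ 3 / (m : ℚ_[p]) ^ k)
    (hS : ∀ N : ℕ, S N = ∑ k ∈ range N, a k)
    (hQ : ∀ N : ℕ, Q N = ∑ k ∈ range N,
      ((α : ℚ_[p]) * (k : ℚ_[p]) ^ 2 + (β : ℚ_[p]) * (k : ℚ_[p]) + (γ : ℚ_[p])) * a k)
    (z u : ℤ_[p]) (hz : 12 * z = 1)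
    (hu : u = (jacobiSym e p : ℤ_[p]) * (-1) ^ ((p + 1) / 2) *
      if D = 3 then gammaP p (2 * z) ^ 2 * gammaP p (4 * z) ^ 2 else gammaP p (3 * z) ^ 4) :
    IsUnit u ∧
    (p % D = 1 →
      (∀ x y : ℤ, (p : ℤ) = x ^ 2 + D * y ^ 2 →
        u ^ 2 - (jacobiSym e p : ℤ_[p]) * (4 * (x : ℤ_[p]) ^ 2 - 2 * (p : ℤ_[p])) * u +
          (p : ℤ_[p]) ^ 2 = 0) ∧
      ∀ n j : ℕ, 2 * j < p → ∃ R R' : ℤ_[p],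
        S (p * n - j) - (u : ℚ_[p]) * S n =
          (p : ℚ_[p]) ^ 3 * (n : ℚ_[p]) ^ 3 * a n * (R : ℚ_[p]) ∧
        (u : ℚ_[p]) * Q (p * n - j) - (p : ℚ_[p]) ^ 2 * Q n =
          (p : ℚ_[p]) ^ 3 * (n : ℚ_[p]) ^ 3 * a n * (R' : ℚ_[p])) ∧
    (p % D ≠ 1 →
      ∀ n j : ℕ, 2 * j < p → ∃ R R' : ℤ_[p],
        (κ : ℚ_[p]) * S (p * n - j) + (p : ℚ_[p]) ^ 2 * (u : ℚ_[p]) * Q n =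
          (p : ℚ_[p]) ^ 3 * (n : ℚ_[p]) ^ 3 * a n * (R : ℚ_[p]) ∧
        (u : ℚ_[p]) * Q (p * n - j) + (κ : ℚ_[p]) * S n =
          (p : ℚ_[p]) ^ 3 * (n : ℚ_[p]) ^ 3 * a n * (R' : ℚ_[p])) := by
  have h5 : 5 ≤ p := by
    rcases (Fact.out : p.Prime).eq_two_or_odd with h | h <;> omega
  exact MP_54d89f_nt.Dx.family h5 hm ha hS hQ hz hu

end Pool.Agent.Results.MP_54d89f_nt.DworkFamily
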