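import Pool.Agent.Mg.F54d89f.Gfd506a

/-! The half range congruence of item 4 for all odd n. -/

namespace Pool.Agent.Results.MP_54d89f_nt.HalfRange

open Finset

theorem result (E : ℕ → ℤ) (h0 : E 0 = 1)
    (hE : ∀ n : ℕ, 1 ≤ n → ∑ k ∈ (range (n + 1)).filter (fun k => 2 ∣ k),
      (n.choose k : ℤ) * E (n - k) = 0)
    (p : ℕ) (hp : p.Prime) (h3 : 3 < p) (n : ℕ) (hn : Odd n) :
    (p : ℤ) ∣ ((16 : ℚ) ^ ((n - 1) / 2) *
        ((∑ k ∈ range ((p * n - 1) / 2 + 1),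
            (3 * (k : ℚ) + 1) * (Nat.choose (2 * k) k : ℚ) ^ 3 / 16 ^ k) -
          (p : ℚ) * ∑ k ∈ range ((n - 1) / 2 + 1),
            (3 * (k : ℚ) + 1) * (Nat.choose (2 * k) k : ℚ) ^ 3 / 16 ^ k) /
        (((p : ℚ) * (n : ℚ)) ^ 3 * (Nat.choose (n - 1) ((n - 1) / 2) : ℚ) ^ 3) -
      2 * (jacobiSym (-1) p : ℚ) * (E (p - 3) : ℚ)).num := by
  have : Fact p.Prime := ⟨hp⟩
  have h5 : 5 ≤ p := by
    rcases hp.eq_two_or_odd with h | h <;> omega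
  have hh := Pool.Agent.MP_54d89f_nt.odd_p h5
  obtain ⟨m, rfl⟩ := hn
  refine Pool.Agent.MP_54d89f_nt.dvd_num_of_norm ?_
  have h := Pool.Agent.MP_54d89f_nt.Dv.half_padic h5 E h0 hE m
  have e1 : (p * (2 * m + 1) - 1) / 2 = p * m + p / 2 := by
    rw [mul_add, mul_left_comm]; omega
  rw [jacobiSym.at_neg_one ⟨p / 2, hh⟩, ZMod.χ₄_eq_neg_one_pow (by omega), e1,
    Nat.add_sub_cancel, Nat.mul_div_cancel_left m two_pos]
  rw [Pool.Agent.MP_54d89f_nt.OP, pow_one, Pool.Agent.MP_54d89f_nt.Dv.aa,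
    Pool.Agent.MP_54d89f_nt.Dv.SS, Pool.Agent.MP_54d89f_nt.Dv.SS, ← mul_div_assoc,
    div_div_eq_mul_div, mul_comm _ ((16 : ℚ_[p]) ^ m)] at h
  push_cast
  exact h

end Pool.Agent.Results.MP_54d89f_nt.HalfRange
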