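import Pool.Agent.MP_54d89f_nt.DvB

/-! The exact power of two in the quotient of item 5. -/

namespace Pool.Agent.Results.MP_54d89f_nt.SharpItemFive

theorem result (n : ℕ) (hn : 2 ≤ n) : ∃ e m : ℕ, Odd m ∧
    e + 4 = 2 * (Nat.digits 2 n).sum + 3 * padicValNat 2 n ∧
    ∑ k ∈ Finset.range n, (3 * k + 1) * ((2 * k).choose k) ^ 3 * 16 ^ (n - 1 - k) =
      2 * n * (2 * n).choose n * (2 ^ e * m) :=
  Pool.Agent.MP_54d89f_nt.Dv.sharp5 n hn

end Pool.Agent.Results.MP_54d89f_nt.SharpItemFive
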